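import Mathlib

open Filter Topology Set

namespace Pool.Agent.Results.MP_a2bddf_an.Ruziewicz

/-- distance to the nearest integer -/
noncomputable def nd (y : ℝ) : ℝ := |y - round y|

lemma nd_nonneg (y : ℝ) : 0 ≤ nd y := abs_nonneg _

lemma nd_le (y : ℝ) : nd y ≤ 1 / 2 := abs_sub_round y

lemma nd_le_int (y : ℝ) (n : ℤ) : nd y ≤ |y - n| := round_le y n

lemma nd_lip (x y : ℝ) : |nd x - nd y| ≤ |x - y| := by
  have h : ∀ a b : ℝ, nd a - nd b ≤ |a - b| := by
    intro a b
    have h1 := nd_le_int a (round b)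
    have h2 : |a - round b| ≤ |a - b| + |b - round b| := by
      have := abs_add_le (a - b) (b - round b)
      simpa using this
    unfold nd at *
    linarith
  rw [abs_le]
  constructor
  · have := h y x
    rw [abs_sub_comm] at this
    linarith
  · exact h x y

lemma nd_diff_le (x y : ℝ) : |nd x - nd y| ≤ 1 / 2 := by
  rw [abs_le]
  constructor <;> linarith [nd_nonneg x, nd_nonneg y, nd_le x, nd_le y]

lemma nd_eq (y : ℝ) (n : ℤ) (h : |y - n| ≤ 1 / 2) : nd y = |y - n| := by
  apply le_antisymm (nd_le_int y n)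
  by_cases hn : round y = n
  · unfold nd; rw [hn]
  · have h1 : (1 : ℝ) ≤ |(round y : ℝ) - n| := by
      have : (1 : ℤ) ≤ |round y - n| := Int.one_le_abs (sub_ne_zero.mpr hn)
      exact_mod_cast this
    have h2 : |(round y : ℝ) - n| ≤ |y - round y| + |y - n| := by
      have := abs_sub_le (round y : ℝ) y n
      rw [abs_sub_comm (round y : ℝ) y] at this
      exact this
    unfold nd
    linarith

/-- A quarter step to one side changes `nd` by exactly `1/4`. -/
lemma nd_quarter (y : ℝ) : ∃ e : ℝ, (e = 1 / 4 ∨ e = -(1 / 4)) ∧ |nd (y + e) - nd y| = 1 / 4 := by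
  have hu := abs_le.mp (abs_sub_round y)
  set n : ℤ := round y with hn
  have hny : nd y = |y - n| := rfl
  rcases le_or_gt 0 (y - n) with h0 | h0
  · rcases le_or_gt (y - n) (1 / 4) with h1 | h1
    · refine ⟨1 / 4, Or.inl rfl, ?_⟩
      have : nd (y + 1 / 4) = |y + 1 / 4 - n| := nd_eq _ n (by rw [abs_le]; constructor <;> linarith)
      rw [this, hny, abs_of_nonneg h0, abs_of_nonneg (by linarith : (0:ℝ) ≤ y + 1 / 4 - n)]
      rw [show y + 1 / 4 - n - (y - n) = 1 / 4 by ring]
      norm_num
    · refine ⟨-(1 / 4), Or.inr rfl, ?_⟩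
      have : nd (y + -(1 / 4)) = |y + -(1 / 4) - n| :=
        nd_eq _ n (by rw [abs_le]; constructor <;> linarith)
      rw [this, hny, abs_of_nonneg h0, abs_of_nonneg (by linarith : (0:ℝ) ≤ y + -(1 / 4) - n)]
      rw [show y + -(1 / 4) - n - (y - n) = -(1 / 4) by ring]
      norm_num
  · rcases le_or_gt (-(1 / 4)) (y - n) with h1 | h1
    · refine ⟨-(1 / 4), Or.inr rfl, ?_⟩
      have : nd (y + -(1 / 4)) = |y + -(1 / 4) - n| :=
        nd_eq _ n (by rw [abs_le]; constructor <;> linarith)
      rw [this, hny, abs_of_neg h0, abs_of_neg (by linarith : y + -(1 / 4) - n < 0)]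
      rw [show -(y + -(1 / 4) - n) - -(y - n) = 1 / 4 by ring]
      norm_num
    · refine ⟨1 / 4, Or.inl rfl, ?_⟩
      have : nd (y + 1 / 4) = |y + 1 / 4 - n| := nd_eq _ n (by rw [abs_le]; constructor <;> linarith)
      rw [this, hny, abs_of_neg h0, abs_of_neg (by linarith : y + 1 / 4 - n < 0)]
      rw [show -(y + 1 / 4 - n) - -(y - n) = -(1 / 4) by ring]
      norm_num

section construction

variable {δ : ℝ} (hδ : 0 < δ) {w φ : ℝ → ℝ}
  (hwpos : ∀ h, 0 < |h| → |h| < δ → 0 < w h)
  (hwmono : ∀ h h', 0 < |h| → |h| ≤ |h'| → |h'| < δ → w h ≤ w h')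
  (hw0 : Tendsto w (𝓝[≠] 0) (𝓝 0))
  (hw : Tendsto (fun h => w h / |h|) (𝓝[≠] 0) atTop)
  (hwφ : Tendsto (fun h => w h / φ h) (𝓝[≠] 0) atTop)
  (hφpos : ∀ h, 0 < |h| → |h| < δ → 0 < φ h)

lemma ev_right {p : ℝ → Prop} (h : ∀ᶠ t in 𝓝[≠] (0 : ℝ), p t) :
    ∃ η > 0, ∀ t, 0 < t → t < η → p t := by
  rw [eventually_nhdsWithin_iff, Metric.eventually_nhds_iff] at h
  obtain ⟨η, hη, h⟩ := h
  refine ⟨η, hη, fun t ht1 ht2 => h ?_ (by simpa using ht1.ne')⟩
  rw [Real.dist_eq, sub_zero, abs_of_pos ht1]
  exact ht2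

include hδ hwpos hwmono hw in
/-- near-minimal slopes exist at arbitrarily small scales -/
lemma exists_min (η : ℝ) (hη : 0 < η) : ∃ t, 0 < t ∧ t < η ∧ t < δ ∧
    ∀ s, 0 < s → s ≤ t → w t / t / 2 ≤ w s / s := by
  set η₀ := min η δ / 2 with hη₀
  have hη₀pos : 0 < η₀ := by positivity
  have hη₀η : η₀ < η := by
    have : min η δ ≤ η := min_le_left _ _
    linarith
  have hη₀δ : η₀ < δ := by
    have : min η δ ≤ δ := min_le_right _ _
    linarith
  obtain ⟨η₁, hη₁, h1⟩ := ev_right (hw.eventually_ge_atTop 1)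
  set η₂ := min η₁ η₀ / 2 with hη₂
  have hη₂pos : 0 < η₂ := by positivity
  have hη₂η₀ : η₂ ≤ η₀ := by
    have : min η₁ η₀ ≤ η₀ := min_le_right _ _
    linarith
  have hη₂η₁ : η₂ < η₁ := by
    have : min η₁ η₀ ≤ η₁ := min_le_left _ _
    linarith
  set m : ℝ → ℝ := fun s => w s / s with hm
  set T := m '' Ioc 0 η₀ with hT
  have hTne : T.Nonempty := ⟨m η₀, η₀, ⟨hη₀pos, le_rfl⟩, rfl⟩
  set c := min 1 (w η₂ / η₀) with hc
  have hwη₂ : 0 < w η₂ := hwpos η₂ (by rwa [abs_of_pos hη₂pos]) (by
    rw [abs_of_pos hη₂pos]; linarith)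
  have hcpos : 0 < c := lt_min one_pos (by positivity)
  have hlb : ∀ y ∈ T, c ≤ y := by
    rintro y ⟨s, ⟨hs0, hs1⟩, rfl⟩
    rcases lt_or_ge s η₂ with hs | hs
    · have := h1 s hs0 (by linarith)
      rw [abs_of_pos hs0] at this
      exact le_trans (min_le_left _ _) this
    · refine le_trans (min_le_right _ _) ?_
      have h2 : w η₂ ≤ w s := hwmono η₂ s (by rwa [abs_of_pos hη₂pos]) (by
        rw [abs_of_pos hη₂pos, abs_of_pos hs0]; exact hs) (by rw [abs_of_pos hs0]; linarith)
      simp only [hm]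
      rw [div_le_div_iff₀ hη₀pos hs0]
      nlinarith
  have hbdd : BddBelow T := ⟨c, hlb⟩
  have hI : c ≤ sInf T := le_csInf hTne hlb
  obtain ⟨y, ⟨t, ⟨ht0, ht1⟩, rfl⟩, hy⟩ := exists_lt_of_csInf_lt hTne
    (show sInf T < 2 * sInf T by linarith)
  refine ⟨t, ht0, by linarith, by linarith, fun s hs0 hs1 => ?_⟩
  have h3 : sInf T ≤ m s := csInf_le hbdd ⟨s, ⟨hs0, by linarith⟩, rfl⟩
  simp only [hm] at h3 hy
  linarith

include hδ hwpos hwmono hw hw0 hwφ hφpos in
lemma exists_next (k : ℕ) (L B : ℝ) (hB : 0 < B) (η : ℝ) (hη : 0 < η) :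
    ∃ t, 0 < t ∧ t < η ∧ t < δ ∧ (∀ s, 0 < s → s ≤ t → w t / t / 2 ≤ w s / s) ∧
      L ≤ w t / t ∧ w t ≤ B ∧ (k + 1) * φ t ≤ w t := by
  obtain ⟨η₁, hη₁, h1⟩ := ev_right (hw.eventually_ge_atTop L)
  obtain ⟨η₂, hη₂, h2⟩ := ev_right (hw0.eventually_le_const hB)
  obtain ⟨η₃, hη₃, h3⟩ := ev_right (hwφ.eventually_ge_atTop ((k : ℝ) + 1))
  obtain ⟨t, ht0, ht1, htδ, ht2⟩ := exists_min hδ hwpos hwmono hw (min (min η η₁) (min η₂ η₃))
    (by positivity)
  have a1 : t < η := lt_of_lt_of_le ht1 (le_trans (min_le_left _ _) (min_le_left _ _))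
  have a2 : t < η₁ := lt_of_lt_of_le ht1 (le_trans (min_le_left _ _) (min_le_right _ _))
  have a3 : t < η₂ := lt_of_lt_of_le ht1 (le_trans (min_le_right _ _) (min_le_left _ _))
  have a4 : t < η₃ := lt_of_lt_of_le ht1 (le_trans (min_le_right _ _) (min_le_right _ _))
  refine ⟨t, ht0, a1, htδ, ht2, ?_, h2 t ht0 a3, ?_⟩
  · have := h1 t ht0 a2
    rwa [abs_of_pos ht0] at this
  · have := h3 t ht0 a4
    have hp := hφpos t (by rwa [abs_of_pos ht0]) (by rwa [abs_of_pos ht0])
    rwa [le_div_iff₀ hp] at this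

end construction

/-- **MP_a2bddf_an, Q1 (Ruziewicz; yes).** For every admissible pair `w, φ` there is a function with
modulus of continuity smaller than `w` whose oscillation exceeds every multiple of `φ` at each
point. (The monotonicity hypotheses for `|h| ≤ |h'|` contain that `w` and `φ` depend only on
`|h|`.) -/
theorem result (δ : ℝ) (hδ : 0 < δ) (w φ : ℝ → ℝ)
    (hwpos : ∀ h, 0 < |h| → |h| < δ → 0 < w h)
    (hφpos : ∀ h, 0 < |h| → |h| < δ → 0 < φ h)
    (hwmono : ∀ h h', 0 < |h| → |h| ≤ |h'| → |h'| < δ → w h ≤ w h')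
    (hφmono : ∀ h h', 0 < |h| → |h| ≤ |h'| → |h'| < δ → φ h ≤ φ h')
    (hw0 : Tendsto w (𝓝[≠] 0) (𝓝 0)) (_hφ0 : Tendsto φ (𝓝[≠] 0) (𝓝 0))
    (hw : Tendsto (fun h => w h / |h|) (𝓝[≠] 0) atTop)
    (hwφ : Tendsto (fun h => w h / φ h) (𝓝[≠] 0) atTop) :
    ∃ f : ℝ → ℝ, (∀ x h, 0 < |h| → |h| < δ → |f (x + h) - f x| < w h) ∧
      ∀ x, limsup (fun h : ℝ => ((|(f (x + h) - f x) / φ h| : ℝ) : EReal)) (𝓝[≠] 0) = ⊤ := by
  have hnext : ∀ (k : ℕ) (t : ℝ), ∃ t', 0 < t → t < δ → (0 < t' ∧ t' < t ∧ t' < δ ∧
      (∀ s, 0 < s → s ≤ t' → w t' / t' / 2 ≤ w s / s) ∧ 20 * (w t / t) ≤ w t' / t' ∧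
      w t' ≤ w t / 1000 ∧ ((k : ℝ) + 1) * φ t' ≤ w t') := by
    intro k t
    by_cases ht : 0 < t ∧ t < δ
    · have hwt : 0 < w t := hwpos t (by rw [abs_of_pos ht.1]; exact ht.1)
        (by rw [abs_of_pos ht.1]; exact ht.2)
      obtain ⟨t', h1, h2, h3, h4, h5, h6, h7⟩ := exists_next hδ hwpos hwmono hw0 hw hwφ hφpos k
        (20 * (w t / t)) (w t / 1000) (by positivity) t ht.1
      exact ⟨t', fun _ _ => ⟨h1, h2, h3, h4, h5, h6, h7⟩⟩
    · exact ⟨0, fun h1 h2 => absurd ⟨h1, h2⟩ ht⟩
  choose nxt hnxt using hnext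
  obtain ⟨t0, ht00, -, ht0δ, ht0m, -, -, ht0φ⟩ := exists_next hδ hwpos hwmono hw0 hw hwφ hφpos 0
    0 1 one_pos 1 one_pos
  obtain ⟨H, hH0, hHs⟩ : ∃ H : ℕ → ℝ, H 0 = t0 ∧ ∀ k, H (k + 1) = nxt (k + 1) (H k) :=
    ⟨fun n => Nat.rec t0 (fun k t => nxt (k + 1) t) n, rfl, fun k => rfl⟩
  have hHpos : ∀ k, 0 < H k ∧ H k < δ := by
    intro k
    induction k with
    | zero => rw [hH0]; exact ⟨ht00, ht0δ⟩
    | succ k ih =>
      have := hnxt (k + 1) (H k) ih.1 ih.2
      rw [hHs]
      exact ⟨this.1, this.2.2.1⟩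
  have hHn := fun k => hnxt (k + 1) (H k) (hHpos k).1 (hHpos k).2
  simp only [← hHs] at hHn
  have hmin : ∀ k s, 0 < s → s ≤ H k → w (H k) / H k / 2 ≤ w s / s := by
    intro k
    cases k with
    | zero => rw [hH0]; exact ht0m
    | succ k => exact (hHn k).2.2.2.1
  have hslope : ∀ k, 20 * (w (H k) / H k) ≤ w (H (k + 1)) / H (k + 1) := fun k => (hHn k).2.2.2.2.1
  have hwdec : ∀ k, w (H (k + 1)) ≤ w (H k) / 1000 := fun k => (hHn k).2.2.2.2.2.1
  have hHdec : ∀ k, H (k + 1) < H k := fun k => (hHn k).2.1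
  have hφ : ∀ k : ℕ, ((k : ℝ) + 1) * φ (H k) ≤ w (H k) := by
    intro k
    cases k with
    | zero => rw [hH0]; simpa using ht0φ
    | succ k => exact (hHn k).2.2.2.2.2.2
  have hwHpos : ∀ k, 0 < w (H k) := fun k => hwpos _ (by rw [abs_of_pos (hHpos k).1]; exact (hHpos k).1)
    (by rw [abs_of_pos (hHpos k).1]; exact (hHpos k).2)
  -- amplitudes and slopes
  set a : ℕ → ℝ := fun k => w (H k) / 200 with ha
  set s : ℕ → ℝ := fun k => w (H k) / H k / 200 with hs
  have hapos : ∀ k, 0 < a k := fun k => by have := hwHpos k; simp only [ha]; positivity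
  have hspos : ∀ k, 0 < s k := fun k => by
    have := hwHpos k
    have := (hHpos k).1
    simp only [hs]; positivity
  have hsa : ∀ k, s k * H k = a k := fun k => by
    have := (hHpos k).1.ne'
    simp only [hs, ha]; field_simp
  have hadec : ∀ k, a (k + 1) ≤ a k / 1000 := fun k => by
    have := hwdec k
    simp only [ha]; linarith
  have hsinc : ∀ k, 20 * s k ≤ s (k + 1) := fun k => by
    have := hslope k
    simp only [hs]; linarith
  have hageom : ∀ n k, a (n + k) ≤ a n * (1 / 1000) ^ k := by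
    intro n k
    induction k with
    | zero => simp
    | succ k ih =>
      have := hadec (n + k)
      rw [← add_assoc, pow_succ]
      nlinarith
  have hasum : Summable a := by
    refine Summable.of_nonneg_of_le (fun k => (hapos k).le) (fun k => ?_)
      ((summable_geometric_of_lt_one (by norm_num : (0:ℝ) ≤ 1 / 1000) (by norm_num)).mul_left (a 0))
    have := hageom 0 k
    simpa using this
  have hatail : ∀ n, ∑' k, a (k + n) ≤ a n * (1000 / 999) := by
    intro n
    have h1 : ∑' k, a (k + n) ≤ ∑' k : ℕ, a n * (1 / 1000 : ℝ) ^ k := by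
      refine Summable.tsum_le_tsum (fun k => ?_) ((summable_nat_add_iff n).mpr hasum)
        ((summable_geometric_of_lt_one (by norm_num : (0:ℝ) ≤ 1 / 1000) (by norm_num)).mul_left _)
      rw [add_comm k n]
      exact hageom n k
    rw [tsum_mul_left, tsum_geometric_of_lt_one (by norm_num) (by norm_num)] at h1
    refine le_trans h1 (le_of_eq ?_)
    norm_num
  have hssum : ∀ n, ∑ k ∈ Finset.range n, s k ≤ s n / 19 := by
    intro n
    induction n with
    | zero =>
      have := hspos 0
      rw [Finset.sum_range_zero]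
      positivity
    | succ n ih =>
      rw [Finset.sum_range_succ]
      have := hsinc n
      linarith
  -- the building blocks
  set T : ℕ → ℝ → ℝ := fun k x => s k * (2 * H k) * nd (x / (2 * H k)) with hT
  have hTlip : ∀ k x y, |T k x - T k y| ≤ s k * |x - y| := by
    intro k x y
    have hHk := (hHpos k).1
    simp only [hT]
    rw [← mul_sub, abs_mul, abs_of_pos (by have := hspos k; positivity : 0 < s k * (2 * H k))]
    have h1 := nd_lip (x / (2 * H k)) (y / (2 * H k))
    rw [← sub_div, abs_div, abs_of_pos (by positivity : (0:ℝ) < 2 * H k),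
      le_div_iff₀ (by positivity)] at h1
    have := hspos k
    nlinarith
  have hTamp : ∀ k x y, |T k x - T k y| ≤ a k := by
    intro k x y
    have hHk := (hHpos k).1
    simp only [hT]
    rw [← mul_sub, abs_mul, abs_of_pos (by have := hspos k; positivity : 0 < s k * (2 * H k))]
    have h1 := nd_diff_le (x / (2 * H k)) (y / (2 * H k))
    have h2 := hsa k
    have h3 : 0 < s k * (2 * H k) := by have := hspos k; positivity
    nlinarith
  have hTsum : ∀ x, Summable fun k => T k x := by
    intro x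
    refine Summable.of_norm_bounded (g := a) hasum (fun k => ?_)
    have h2 := hsa k
    have hHk := (hHpos k).1
    have h3 : 0 < s k * (2 * H k) := by have := hspos k; positivity
    rw [Real.norm_of_nonneg (by simp only [hT]; exact mul_nonneg h3.le (nd_nonneg _))]
    simp only [hT]
    have := nd_le (x / (2 * H k))
    nlinarith
  have hdsum : ∀ x y, Summable fun k => |T k x - T k y| := fun x y =>
    Summable.of_nonneg_of_le (fun k => abs_nonneg _) (fun k => hTamp k x y) hasum
  -- master estimate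
  have hmaster : ∀ n x y, ∑' k, |T k x - T k y| ≤ s n / 19 * |x - y| + |T n x - T n y| +
      a (n + 1) * (1000 / 999) := by
    intro n x y
    rw [← (hdsum x y).sum_add_tsum_nat_add (n + 1), Finset.sum_range_succ]
    have h1 : ∑ k ∈ Finset.range n, |T k x - T k y| ≤ s n / 19 * |x - y| := by
      calc ∑ k ∈ Finset.range n, |T k x - T k y| ≤ ∑ k ∈ Finset.range n, s k * |x - y| :=
            Finset.sum_le_sum fun k _ => hTlip k x y
        _ = (∑ k ∈ Finset.range n, s k) * |x - y| := by rw [Finset.sum_mul]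
        _ ≤ _ := mul_le_mul_of_nonneg_right (hssum n) (abs_nonneg _)
    have h2 : ∑' k, |T (k + (n + 1)) x - T (k + (n + 1)) y| ≤ a (n + 1) * (1000 / 999) :=
      le_trans (Summable.tsum_le_tsum (fun k => hTamp _ x y)
        ((summable_nat_add_iff (n + 1)).mpr (hdsum x y))
        ((summable_nat_add_iff (n + 1)).mpr hasum)) (hatail (n + 1))
    linarith
  have hfdiff : ∀ x y, |∑' k, T k x - ∑' k, T k y| ≤ ∑' k, |T k x - T k y| := by
    intro x y
    rw [← (hTsum x).tsum_sub (hTsum y)]
    have := norm_tsum_le_tsum_norm (f := fun k => T k x - T k y) (by simpa using hdsum x y)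
    simpa using this
  refine ⟨fun x => ∑' k, T k x, ?_, ?_⟩
  · intro x h hh0 hhδ
    refine lt_of_le_of_lt (hfdiff _ _) ?_
    have hxh : |x + h - x| = |h| := by rw [add_sub_cancel_left]
    by_cases hcase : |h| ≤ H 0
    · -- find n with H (n+1) < |h| ≤ H n
      have hHtend : ∃ n, H (n + 1) < |h| := by
        by_contra hcon
        push Not at hcon
        -- w (H (n+1)) ≥ w h > 0 contradicts decay
        have hwh : 0 < w h := hwpos h hh0 hhδ
        have h1 : ∀ n, w h / 200 ≤ a (n + 1) := fun n => by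
          have := hwmono h (H (n + 1)) hh0 (by rw [abs_of_pos (hHpos _).1]; exact hcon n)
            (by rw [abs_of_pos (hHpos _).1]; exact (hHpos _).2)
          simp only [ha]; linarith
        have h2 := hasum.tendsto_atTop_zero
        have h3 := ((tendsto_add_atTop_iff_nat 1).mpr h2)
        have h4 := ge_of_tendsto' h3 h1
        linarith
      classical
      set n := Nat.find hHtend with hn
      have hn1 : H (n + 1) < |h| := Nat.find_spec hHtend
      have hn2 : |h| ≤ H n := by
        rcases Nat.eq_zero_or_pos n with h0 | h0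
        · rw [h0]; exact hcase
        · have := Nat.find_min hHtend (m := n - 1) (by omega)
          push Not at this
          rwa [Nat.sub_add_cancel h0] at this
      have h1 := hmaster n (x + h) x
      rw [hxh] at h1
      have h2 := hTlip n (x + h) x
      rw [hxh] at h2
      have h3 := hmin n |h| hh0 hn2
      have hwabs : w |h| ≤ w h := hwmono _ _ (by rwa [abs_abs]) (by rw [abs_abs]) hhδ
      have h4 : s n * |h| ≤ w h / 100 := by
        rw [le_div_iff₀ hh0] at h3
        simp only [hs]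
        linarith
      have h5 : a (n + 1) ≤ w h / 200 := by
        have := hwmono (H (n + 1)) h (by rw [abs_of_pos (hHpos _).1]; exact (hHpos _).1)
          (by rw [abs_of_pos (hHpos _).1]; exact hn1.le) hhδ
        simp only [ha]; linarith
      have hwh : 0 < w h := hwpos h hh0 hhδ
      nlinarith
    · push Not at hcase
      have h1 : ∑' k, |T k (x + h) - T k x| ≤ ∑' k, a (k + 0) :=
        Summable.tsum_le_tsum (fun k => hTamp k _ _) (hdsum _ _) hasum
      have h2 := hatail 0
      have h5 : a 0 ≤ w h / 200 := by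
        have := hwmono (H 0) h (by rw [abs_of_pos (hHpos _).1]; exact (hHpos _).1)
          (by rw [abs_of_pos (hHpos _).1]; exact hcase.le) hhδ
        simp only [ha]; linarith
      have hwh : 0 < w h := hwpos h hh0 hhδ
      linarith
  · intro x
    -- for each n there is h = ± H n / 2 with a big quotient
    have hbig : ∀ n : ℕ, ∃ h, h ≠ 0 ∧ |h| ≤ H n ∧
        ((n : ℝ) + 1) / 800 ≤ |(∑' k, T k (x + h) - ∑' k, T k x) / φ h| := by
      intro n
      have hHn := (hHpos n).1
      obtain ⟨e, he, hed⟩ := nd_quarter (x / (2 * H n))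
      have heabs : |e| = 1 / 4 := by
        rcases he with rfl | rfl
        · norm_num
        · norm_num
      have he0 : e ≠ 0 := by
        intro h0; rw [h0] at heabs; norm_num at heabs
      refine ⟨2 * H n * e, by positivity, ?_, ?_⟩
      · rw [abs_mul, heabs, abs_of_pos (by positivity)]
        linarith
      · have habs : |2 * H n * e| = H n / 2 := by
          rw [abs_mul, heabs, abs_of_pos (by positivity)]; ring
        have hTn : |T n (x + 2 * H n * e) - T n x| = a n / 2 := by
          simp only [hT]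
          have e1 : (x + 2 * H n * e) / (2 * H n) = x / (2 * H n) + e := by field_simp
          rw [e1, ← mul_sub, abs_mul, hed,
            abs_of_pos (by have := hspos n; positivity : 0 < s n * (2 * H n)), ← hsa n]
          ring
        have hfd : a n / 4 ≤ |∑' k, T k (x + 2 * H n * e) - ∑' k, T k x| := by
          set y := x + 2 * H n * e with hy
          have hyx : |y - x| = H n / 2 := by rw [hy, add_sub_cancel_left, habs]
          -- difference = T n difference + rest
          have hsplit : ∑' k, T k y - ∑' k, T k x = (T n y - T n x) +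
              ((∑ k ∈ Finset.range n, (T k y - T k x)) +
                ∑' k, (T (k + (n + 1)) y - T (k + (n + 1)) x)) := by
            rw [← (hTsum y).tsum_sub (hTsum x),
              ← ((hTsum y).sub (hTsum x)).sum_add_tsum_nat_add (n + 1), Finset.sum_range_succ]
            ring
          have h1 : |∑ k ∈ Finset.range n, (T k y - T k x)| ≤ s n / 19 * |y - x| := by
            calc |∑ k ∈ Finset.range n, (T k y - T k x)| ≤
                ∑ k ∈ Finset.range n, |T k y - T k x| := Finset.abs_sum_le_sum_abs _ _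
              _ ≤ ∑ k ∈ Finset.range n, s k * |y - x| :=
                  Finset.sum_le_sum fun k _ => hTlip k y x
              _ = (∑ k ∈ Finset.range n, s k) * |y - x| := by rw [Finset.sum_mul]
              _ ≤ _ := mul_le_mul_of_nonneg_right (hssum n) (abs_nonneg _)
          have h2 : |∑' k, (T (k + (n + 1)) y - T (k + (n + 1)) x)| ≤
              a (n + 1) * (1000 / 999) := by
            have hsm := (summable_nat_add_iff (n + 1)).mpr (hdsum y x)
            have h3 : |∑' k, (T (k + (n + 1)) y - T (k + (n + 1)) x)| ≤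
                ∑' k, |T (k + (n + 1)) y - T (k + (n + 1)) x| := by
              have := norm_tsum_le_tsum_norm
                (f := fun k => T (k + (n + 1)) y - T (k + (n + 1)) x) (by simpa using hsm)
              simpa using this
            exact le_trans h3 (le_trans (Summable.tsum_le_tsum (fun k => hTamp _ y x) hsm
              ((summable_nat_add_iff (n + 1)).mpr hasum)) (hatail (n + 1)))
          rw [hsplit]
          have h4 := abs_sub_abs_le_abs_sub (T n y - T n x) (-((∑ k ∈ Finset.range n,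
            (T k y - T k x)) + ∑' k, (T (k + (n + 1)) y - T (k + (n + 1)) x)))
          rw [sub_neg_eq_add, abs_neg, hTn] at h4
          have h5 := abs_add_le (∑ k ∈ Finset.range n, (T k y - T k x))
            (∑' k, (T (k + (n + 1)) y - T (k + (n + 1)) x))
          rw [hyx] at h1
          have h6 := hsa n
          have h7 := hadec n
          have h8 := hapos n
          nlinarith
        have hφn := hφ n
        have hφh : φ (2 * H n * e) ≤ φ (H n) := hφmono _ _ (by rw [habs]; positivity)
          (by rw [habs, abs_of_pos hHn]; linarith) (by rw [abs_of_pos hHn]; exact (hHpos n).2)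
        have hφhpos : 0 < φ (2 * H n * e) := hφpos _ (by rw [habs]; positivity)
          (by rw [habs]; linarith [(hHpos n).2])
        rw [abs_div, abs_of_pos hφhpos, le_div_iff₀ hφhpos]
        refine le_trans ?_ hfd
        have hn0 : (0:ℝ) ≤ n := Nat.cast_nonneg n
        have h9 : ((n : ℝ) + 1) * φ (2 * H n * e) ≤ w (H n) :=
          le_trans (mul_le_mul_of_nonneg_left hφh (by positivity)) hφn
        simp only [ha]
        linarith
    rw [EReal.eq_top_iff_forall_lt]
    intro M
    have hfreq : ∃ᶠ h in 𝓝[≠] (0 : ℝ), ((M + 1 : ℝ) : EReal) ≤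
        ((|(∑' k, T k (x + h) - ∑' k, T k x) / φ h| : ℝ) : EReal) := by
      rw [Filter.frequently_iff]
      intro U hU
      rw [mem_nhdsWithin] at hU
      obtain ⟨V, hVo, hV0, hVU⟩ := hU
      obtain ⟨ε, hε, hball⟩ := Metric.isOpen_iff.mp hVo 0 hV0
      -- H n → 0
      have hHsmall : ∃ n₀, ∀ n, n₀ ≤ n → H n < ε := by
        by_contra hcon
        push Not at hcon
        have hanti : Antitone H := antitone_nat_of_succ_le fun k => (hHdec k).le
        have hge : ∀ n, ε ≤ H n := by
          intro n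
          obtain ⟨m, hm1, hm2⟩ := hcon n
          exact le_trans hm2 (hanti hm1)
        set ε' := min ε (δ / 2) with hε'
        have hε'pos : 0 < ε' := by positivity
        have hε'δ : ε' < δ := by
          have : ε' ≤ δ / 2 := min_le_right _ _
          linarith
        have hwh : 0 < w ε' := hwpos ε' (by rwa [abs_of_pos hε'pos]) (by rwa [abs_of_pos hε'pos])
        have h1 : ∀ n, w ε' / 200 ≤ a n := fun n => by
          have := hwmono ε' (H n) (by rwa [abs_of_pos hε'pos])
            (by rw [abs_of_pos hε'pos, abs_of_pos (hHpos _).1]; exact le_trans (min_le_left _ _) (hge n))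
            (by rw [abs_of_pos (hHpos _).1]; exact (hHpos _).2)
          simp only [ha]; linarith
        have h4 := ge_of_tendsto' hasum.tendsto_atTop_zero h1
        linarith
      obtain ⟨n₀, hn₀⟩ := hHsmall
      obtain ⟨n₁, hn₁⟩ := exists_nat_ge (800 * (M + 1))
      obtain ⟨h, hh0, hhH, hhq⟩ := hbig (max n₀ n₁)
      refine ⟨h, hVU ⟨hball ?_, hh0⟩, ?_⟩
      · rw [Metric.mem_ball, Real.dist_eq, sub_zero]
        exact lt_of_le_of_lt hhH (hn₀ _ (le_max_left _ _))
      · rw [EReal.coe_le_coe_iff]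
        refine le_trans ?_ hhq
        have : (n₁ : ℝ) ≤ ((max n₀ n₁ : ℕ) : ℝ) := by exact_mod_cast le_max_right _ _
        linarith
    have h1 := le_limsup_of_frequently_le hfreq
    refine lt_of_lt_of_le ?_ h1
    exact_mod_cast (by linarith : M < M + 1)

end Pool.Agent.Results.MP_a2bddf_an.Ruziewicz
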